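import Mathlib
import Pool.Agent.H55.AkCore

/-!
# Arithmetic Kakeya for sets of small doubling, with the sharp exponent

For a nonempty finite set `S` of slopes, `-1 ∉ S`, write `N(A)` for the maximum of
`|π_∞(A)|` and of `|π_r(A)|`, `r ∈ S`.  For sets of small (polynomial) doubling the best exponent
in `|π₋₁(A)| ≤ N(A)^e` is exactly `1 + 1/|S|`.
-/

open scoped Pointwise

namespace Pool.Agent.H93.Old.SmallDoubling

theorem result (S : Finset ℚ) (hne : S.Nonempty) (hS : (-1 : ℚ) ∉ S) :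
    (∀ η : ℝ, 0 < η → ∃ δ : ℝ, 0 < δ ∧
      ∀ A : Finset (ℤ × ℤ), ((A + A).card : ℝ) ≤ (A.card : ℝ) ^ (1 + δ) →
        ((A.image (fun p : ℤ × ℤ => (p.1 : ℚ) + (-1) * (p.2 : ℚ))).card : ℝ) ≤
          (max ((A.image (fun p : ℤ × ℤ => (p.2 : ℚ))).card : ℝ)
              ((S.sup (fun r : ℚ =>
                  (A.image (fun p : ℤ × ℤ => (p.1 : ℚ) + r * (p.2 : ℚ))).card) : ℕ) : ℝ))
            ^ (1 + 1 / (S.card : ℝ) + η)) ∧
    (∀ δ : ℝ, 0 < δ → ∀ n : ℕ,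
      ∃ A : Finset (ℤ × ℤ), n ≤ A.card ∧ ((A + A).card : ℝ) ≤ (A.card : ℝ) ^ (1 + δ) ∧
        (max ((A.image (fun p : ℤ × ℤ => (p.2 : ℚ))).card : ℝ)
              ((S.sup (fun r : ℚ =>
                  (A.image (fun p : ℤ × ℤ => (p.1 : ℚ) + r * (p.2 : ℚ))).card) : ℕ) : ℝ))
            ^ (1 + 1 / (S.card : ℝ)) ≤
        ((A.image (fun p : ℤ × ℤ => (p.1 : ℚ) + (-1) * (p.2 : ℚ))).card : ℝ)) :=
  ⟨fun η hη => Pool.Agent.H55.AK.upper S hS hne η hη,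
    fun δ hδ n => Pool.Agent.H55.AK.lower S hS hne δ hδ n⟩

end Pool.Agent.H93.Old.SmallDoubling
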